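import Pool.Agent.helper93.ADV.SpecU

set_option autoImplicit false

namespace Pool.Agent.ADV

open Finset Pool.Agent.helper38.Neg Pool.Agent.helper55.NT Pool.Agent.LNB

/-- the variables are available -/
theorem MJC_vars (n : ℕ) (F : Set (Fn n)) : Rel F 0 0 (Set.range fun (i : Fin n) (x : Fin n → Bool) => x i) := by
  intro L q hL _
  refine ⟨L, q, hL, by omega, by omega, fun _ h => h, ?_⟩
  rintro g ⟨i, rfl⟩
  exact Or.inr ⟨i, rfl⟩

/-- the negated variables -/
theorem MJC_negS (n : ℕ) (S : Finset (Fin n)) :
    Rel ∅ S.card S.card (⋃ i ∈ S, ({fun x : Fin n → Bool => !(x i)} : Set (Fn n))) := by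
  classical
  induction S using Finset.induction_on with
  | empty =>
    refine (Rel.sub (F := (∅ : Set (Fn n))) (G := ∅) (Set.empty_subset _)).mono le_rfl ?_ (by simp) (by simp)
    simp
  | @insert a S ha ih =>
    have h0 : Rel (∅ : Set (Fn n)) (0 + 1) (0 + 1) {fun x : Fin n → Bool => !(x a)} := by
      refine (Rel.var (∅ : Set (Fn n)) a).trans' ?_
      exact Rel.not (u := fun x : Fin n → Bool => x a) (Or.inr rfl)
    have h1 := h0.union ih
    refine h1.mono le_rfl ?_ ?_ ?_
    · intro g hg
      simp only [Finset.mem_insert, Set.mem_iUnion, exists_prop, exists_eq_or_imp] at hg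
      rcases hg with hg | hg
      · exact Or.inl hg
      · refine Or.inr ?_
        simp only [Set.mem_iUnion, exists_prop]
        exact hg
    · rw [Finset.card_insert_of_notMem ha]; omega
    · rw [Finset.card_insert_of_notMem ha]; omega

theorem MJC_neg (n : ℕ) : Rel ∅ n n (Set.range fun (i : Fin n) (x : Fin n → Bool) => !(x i)) := by
  refine (MJC_negS n Finset.univ).mono le_rfl ?_ (by simp) (by simp)
  rintro g ⟨i, rfl⟩
  simp only [Finset.mem_univ, Set.iUnion_true, Set.mem_iUnion]
  exact ⟨i, rfl⟩

theorem MJC_dval1 {n s : ℕ} (C : Circuit n s) (x : Fin n → Bool) (k : Fin (n + s)) :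
    (dval C (fun i => x i) (fun i => !(x i)) k).1 = C.val x k := by
  have h1 := dval_le C x (fun i => x i) (fun i => !(x i)) (fun i => ⟨fun h => h, fun h => by simp [h]⟩) k
  have h2 := dval_ge C x (fun i => x i) (fun i => !(x i)) (fun i => ⟨fun h => h, fun h => by simpa using h⟩) k
  cases hv : C.val x k with
  | true => exact h1.1 hv
  | false =>
    by_contra h
    rw [Bool.not_eq_false] at h
    rw [h2.1 h] at hv
    exact Bool.noConfusion hv

theorem MJC_dval2 {n s : ℕ} (C : Circuit n s) (x : Fin n → Bool) (k : Fin (n + s)) :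
    (dval C (fun i => x i) (fun i => !(x i)) k).2 = !(C.val x k) := by
  have h1 := dval_le C x (fun i => x i) (fun i => !(x i)) (fun i => ⟨fun h => h, fun h => by simp [h]⟩) k
  have h2 := dval_ge C x (fun i => x i) (fun i => !(x i)) (fun i => ⟨fun h => h, fun h => by simpa using h⟩) k
  cases hv : C.val x k with
  | false => exact h1.2 hv
  | true =>
    by_contra h
    have h3 : (dval C (fun i => x i) (fun i => !(x i)) k).2 = true := by
      simpa using h
    rw [h2.2 h3] at hv
    exact Bool.noConfusion hv

theorem MJC (hMJR : MJR_stmt) : MJC_stmt := by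
  classical
  intro n T S f g b hg hmaj
  set P : Fin n → Fn n := fun i x => x i with hP
  set Q : Fin n → Fn n := fun i x => !(x i) with hQ
  have A1 : Rel ∅ (0 + n) (0 + n) (Set.range P ∪ Set.range Q) := (MJC_vars n ∅).union (MJC_neg n)
  have A2i : ∀ i ∈ (Finset.univ : Finset (Fin T)),
      Rel (Set.range P ∪ Set.range Q) (2 * S) 0 ({fun x => xor (b i) (g i x)} : Set (Fn n)) := by
    intro i _
    obtain ⟨s, hs, C, o, hC⟩ := hg i
    refine (Rel.dual C P Q).mono le_rfl ?_ (by omega) le_rfl
    rintro h rfl
    cases hb : b i with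
    | false =>
      refine Or.inl ⟨o, ?_⟩
      funext x
      have h1 := MJC_dval1 C x o
      simp only [hP, hQ, Bool.false_xor]
      rw [hC x]
      exact h1
    | true =>
      refine Or.inr ⟨o, ?_⟩
      funext x
      have h1 := MJC_dval2 C x o
      simp only [hP, hQ, Bool.true_xor]
      rw [hC x]
      exact h1
  have A2 := Rel.biUnion (Finset.univ : Finset (Fin T)) _ A2i
  rw [Finset.card_univ, Fintype.card_fin] at A2
  have A12 := A1.trans' (A2.mono (F' := ∅ ∪ (Set.range P ∪ Set.range Q)) Set.subset_union_right le_rfl le_rfl le_rfl)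
  have A3 := hMJR n T (fun i x => xor (b i) (g i x))
  have A123 := A12.trans' (A3.mono (F' := ∅ ∪ ⋃ i ∈ (Finset.univ : Finset (Fin T)), ({fun x => xor (b i) (g i x)} : Set (Fn n)))
    (by
      rintro h ⟨i, rfl⟩
      right
      simp only [Finset.mem_univ, Set.iUnion_true, Set.mem_iUnion]
      exact ⟨i, rfl⟩) le_rfl le_rfl le_rfl)
  obtain ⟨s', hs', C', o', -, hC'⟩ := A123.toCircuit
  refine ⟨s', by omega, C', o', ?_⟩
  intro x
  rw [hC' x]
  obtain ⟨U, hU, hUf⟩ := hmaj x
  rw [decide_eq_true_iff]
  by_cases hf : f x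
  · simp only [hf, iff_true]
    have h1 : U.card ≤ (Finset.univ.filter fun i => xor (b i) (g i x) = true).card := by
      apply Finset.card_le_card
      intro i hi
      rw [Finset.mem_filter]
      exact ⟨Finset.mem_univ _, (hUf i hi).2 hf⟩
    omega
  · simp only [hf, iff_false]
    have h1 : (Finset.univ.filter fun i => xor (b i) (g i x) = true).card + U.card ≤ T := by
      rw [← Finset.card_union_of_disjoint]
      · have := Finset.card_le_univ ((Finset.univ.filter fun i => xor (b i) (g i x) = true) ∪ U)
        simpa using this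
      · rw [Finset.disjoint_left]
        intro i hi hiU
        exact hf ((hUf i hiU).1 (Finset.mem_filter.1 hi).2)
    omega

end Pool.Agent.ADV
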